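import Pool.Agent.Q144.BeerC

set_option autoImplicit false

/-!
# MP_40f41c_co, Q1: sets of large Beer index contain the boundary of a large triangle

We prove the statement with `δ = ε ^ 9 / 641`. Three random red points and three random blue points
of `S` are joined by nine segments inside `S` with probability at least `ε ^ 9`, the chance that
three of the six points span a triangle of area below `2 δ λ(S)` is at most `640 δ`, and a straight
line drawing of `K_{3,3}` has two disjoint crossing edges; at the crossing point one finds a large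
triangle.
-/

open MeasureTheory Set

namespace Pool.Agent.Results.MP_40f41c_co.BeerTriangle

/-- the pairs of points of `S` joined by a segment inside `S` -/
def Seg (S : Set (ℝ × ℝ)) : Set ((ℝ × ℝ) × (ℝ × ℝ)) :=
  {p | p.1 ∈ S ∧ p.2 ∈ S ∧ segment ℝ p.1 p.2 ⊆ S}

/-- the Beer index of `S` is defined -/
structure HasBeer (S : Set (ℝ × ℝ)) : Prop where
  meas : NullMeasurableSet S volume
  pos : 0 < volume S
  fin : volume S < ⊤
  seg : NullMeasurableSet (Seg S) volume

/-- the Beer index of `S` -/
noncomputable def beer (S : Set (ℝ × ℝ)) : ℝ :=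
  (volume (Seg S)).toReal / (volume S).toReal ^ 2

open Q144.K33 Q144.Beer

theorem vol_tri (p q r : ℝ × ℝ) :
    ENNReal.ofReal (|D p q r| / 2) ≤ volume (convexHull ℝ {p, q, r}) := by
  set φ : EuclideanSpace ℝ (Fin 2) → ℝ × ℝ := fun x => (x 0, x 1) with hφ
  have hmp : MeasurePreserving φ volume volume :=
    (volume_preserving_finTwoArrow ℝ).comp (PiLp.volume_preserving_ofLp (Fin 2))
  have hlin : IsLinearMap ℝ φ := by
    constructor
    · intro x y; simp [hφ]
    · intro c x; simp [hφ]
  have hmeas : MeasurableSet (convexHull ℝ {p, q, r}) :=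
    ((Set.toFinite {p, q, r}).isCompact_convexHull (𝕜 := ℝ)).measurableSet
  rw [← hmp.measure_preimage hmeas.nullMeasurableSet]
  have hconv : Convex ℝ (φ ⁻¹' convexHull ℝ {p, q, r}) :=
    (convex_convexHull ℝ _).is_linear_preimage hlin
  have hsub : convexHull ℝ {(!₂[p.1, p.2] : EuclideanSpace ℝ (Fin 2)), !₂[q.1, q.2], !₂[r.1, r.2]}
      ⊆ φ ⁻¹' convexHull ℝ {p, q, r} := by
    apply convexHull_min _ hconv
    intro x hx
    rcases hx with rfl | rfl | rfl <;> rw [mem_preimage] <;> apply subset_convexHull <;>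
      simp [hφ]
  refine le_trans ?_ (measure_mono hsub)
  have := Q144.vol_tri_ge (!₂[p.1, p.2]) (!₂[q.1, q.2]) (!₂[r.1, r.2])
  simpa [D] using this

theorem cross_tri (a b c d : ℝ × ℝ) (t : ℝ) (h1 : D a b c * D a b d < 0)
    (h2 : D c d a * D c d b < 0) (hacd : t ≤ |D c d a|) (hbcd : t ≤ |D c d b|) :
    ∃ p, p ∈ segment ℝ a b ∧ p ∈ segment ℝ c d ∧ (t / 2 ≤ |D a p d| ∨ t / 2 ≤ |D c p b|) := by
  set T := D a b d - D a b c with hT
  have hT2 : D c d a - D c d b = T := by rw [hT]; unfold D; ring
  have hTne : T ≠ 0 := by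
    intro h
    have : D a b d = D a b c := by linarith
    rw [this] at h1
    nlinarith [mul_self_nonneg (D a b c)]
  set s := D c d a / T with hs
  set u := - D a b c / T with hu
  have hs01 : 0 < s ∧ s < 1 := by
    rcases lt_or_gt_of_ne hTne with h | h
    · constructor
      · apply div_pos_of_neg_of_neg _ h
        by_contra hc; push Not at hc
        nlinarith
      · rw [hs, div_lt_one_of_neg h]
        by_contra hc; push Not at hc
        nlinarith
    · constructor
      · apply div_pos _ h
        by_contra hc; push Not at hc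
        nlinarith
      · rw [hs, div_lt_one h]
        by_contra hc; push Not at hc
        nlinarith
  have hu01 : 0 < u ∧ u < 1 := by
    rcases lt_or_gt_of_ne hTne with h | h
    · constructor
      · apply div_pos_of_neg_of_neg _ h
        by_contra hc; push Not at hc
        nlinarith
      · rw [hu, div_lt_one_of_neg h]
        by_contra hc; push Not at hc
        nlinarith
    · constructor
      · apply div_pos _ h
        by_contra hc; push Not at hc
        nlinarith
      · rw [hu, div_lt_one h]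
        by_contra hc; push Not at hc
        nlinarith
  set p : ℝ × ℝ := a + s • (b - a) with hp
  have hp2 : p = c + u • (d - c) := by
    rw [hp]
    have hT3 : T = D a b d - D a b c := hT
    unfold D at hT3
    ext
    · simp only [Prod.fst_add, Prod.smul_fst, Prod.fst_sub, smul_eq_mul, hs, hu]
      field_simp
      rw [hT3]; unfold D; ring
    · simp only [Prod.snd_add, Prod.smul_snd, Prod.snd_sub, smul_eq_mul, hs, hu]
      field_simp
      rw [hT3]; unfold D; ring
  have e1 : D a p d = s * D a b d := by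
    rw [hp]; unfold D
    simp only [Prod.fst_add, Prod.smul_fst, Prod.fst_sub, smul_eq_mul, Prod.snd_add,
      Prod.smul_snd, Prod.snd_sub]
    ring
  have e2 : D c p b = u * D c d b := by
    rw [hp2]; unfold D
    simp only [Prod.fst_add, Prod.smul_fst, Prod.fst_sub, smul_eq_mul, Prod.snd_add,
      Prod.smul_snd, Prod.snd_sub]
    ring
  refine ⟨p, ?_, ?_, ?_⟩
  · rw [segment_eq_image']
    exact ⟨s, ⟨hs01.1.le, hs01.2.le⟩, rfl⟩
  · rw [segment_eq_image', hp2]
    exact ⟨u, ⟨hu01.1.le, hu01.2.le⟩, rfl⟩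
  · have hTabs : |T| = |D a b c| + |D a b d| := by
      rw [hT]
      rcases lt_or_gt_of_ne hTne with h | h
      · have h3 : 0 < D a b c := by
          by_contra hc; push Not at hc
          nlinarith
        have h4 : D a b d < 0 := by
          by_contra hc; push Not at hc
          nlinarith
        rw [abs_of_pos h3, abs_of_neg h4, abs_of_neg (by linarith)]; ring
      · have h3 : D a b c < 0 := by
          by_contra hc; push Not at hc
          nlinarith
        have h4 : 0 < D a b d := by
          by_contra hc; push Not at hc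
          nlinarith
        rw [abs_of_neg h3, abs_of_pos h4, abs_of_pos (by linarith)]; ring
    have hTpos : 0 < |T| := abs_pos.2 hTne
    rcases le_total |D a b c| |D a b d| with h | h
    · left
      rw [e1, hs, abs_mul, abs_div, div_mul_eq_mul_div, le_div_iff₀ hTpos, hTabs]
      have h5 : 0 ≤ |D a b d| := abs_nonneg _
      have h6 : t * |D a b d| ≤ |D c d a| * |D a b d| := mul_le_mul_of_nonneg_right hacd h5
      rcases le_or_gt t 0 with ht | ht
      · have h7 : t / 2 * (|D a b c| + |D a b d|) ≤ 0 :=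
          mul_nonpos_of_nonpos_of_nonneg (by linarith) (by positivity)
        have h8 : 0 ≤ |D c d a| * |D a b d| := by positivity
        linarith
      · nlinarith
    · right
      rw [e2, hu, abs_mul, abs_div, abs_neg, div_mul_eq_mul_div, le_div_iff₀ hTpos, hTabs]
      have h5 : 0 ≤ |D a b c| := abs_nonneg _
      have h6 : t * |D a b c| ≤ |D c d b| * |D a b c| := mul_le_mul_of_nonneg_right hbcd h5
      rcases le_or_gt t 0 with ht | ht
      · have h7 : t / 2 * (|D a b c| + |D a b d|) ≤ 0 :=
          mul_nonpos_of_nonpos_of_nonneg (by linarith) (by positivity)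
        have h8 : 0 ≤ |D a b c| * |D c d b| := by positivity
        linarith
      · nlinarith

theorem not_collinear {a b c : ℝ × ℝ} (h : D a b c ≠ 0) : ¬ Collinear ℝ {a, b, c} := by
  intro hc
  rw [collinear_iff_of_mem (p₀ := a) (by simp)] at hc
  obtain ⟨v, hv⟩ := hc
  obtain ⟨r, hr⟩ := hv b (by simp)
  obtain ⟨r', hr'⟩ := hv c (by simp)
  apply h
  rw [hr, hr']
  unfold D
  simp only [vadd_eq_add, Prod.fst_add, Prod.smul_fst, smul_eq_mul, Prod.snd_add, Prod.smul_snd]
  ring

/-- the quantitative form -/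
theorem quant (S : Set (ℝ × ℝ)) (hS : HasBeer S) (ε : ℝ) (hε : 0 < ε) (hb : ε ≤ beer S) :
    ∃ a b c : ℝ × ℝ, ¬ Collinear ℝ {a, b, c} ∧ segment ℝ a b ⊆ S ∧ segment ℝ b c ⊆ S ∧
      segment ℝ c a ⊆ S ∧
      ENNReal.ofReal (ε ^ 9 / 641) * volume S ≤ volume (convexHull ℝ {a, b, c}) := by
  obtain ⟨hm, hpos, hfin, hseg⟩ := hS
  obtain ⟨M, hMsub, hMmeas, hMae⟩ := hseg.exists_measurable_subset_ae_eq
  set S' := toMeasurable volume S with hS'
  have hS'm : MeasurableSet S' := measurableSet_toMeasurable _ _
  have hS'v : volume S' = volume S := measure_toMeasurable _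
  have hSS' : S ⊆ S' := subset_toMeasurable _ _
  set V : ℝ := (volume S).toReal with hV
  have hVpos : 0 < V := ENNReal.toReal_pos hpos.ne' hfin.ne
  have hVe : volume S = ENNReal.ofReal V := (ENNReal.ofReal_toReal hfin.ne).symm
  set c : ENNReal := (volume S')⁻¹ with hc
  set μ : Measure R2 := c • volume.restrict S' with hμ
  have hpr : IsProbabilityMeasure μ := by
    refine ⟨?_⟩
    rw [hμ, Measure.smul_apply, Measure.restrict_apply_univ, smul_eq_mul, hc]
    exact ENNReal.inv_mul_cancel (by rw [hS'v]; exact hpos.ne') (by rw [hS'v]; exact hfin.ne)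
  have hμle : ∀ A : Set R2, μ A ≤ c * volume A := by
    intro A
    rw [hμ, Measure.smul_apply, smul_eq_mul]
    exact mul_le_mul_right (Measure.restrict_apply_le _ _) c
  have hcV : c = ENNReal.ofReal (1 / V) := by
    rw [hc, hS'v, hVe, one_div, ENNReal.ofReal_inv_of_pos hVpos]
  have hMv : volume M = volume (Seg S) := measure_congr hMae
  have hprodM : (μ.prod μ) M = c * (c * volume M) := by
    rw [hμ, Measure.prod_smul_left, Measure.prod_smul_right, Measure.prod_restrict,
      Measure.smul_apply, Measure.smul_apply, smul_eq_mul, smul_eq_mul,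
      Measure.restrict_apply hMmeas]
    have : M ∩ S' ×ˢ S' = M := by
      apply inter_eq_left.2
      intro x hx
      have := hMsub hx
      exact ⟨hSS' this.1, hSS' this.2.1⟩
    rw [this]
    rfl
  have hSegfin : volume (Seg S) ≠ ⊤ := by
    have : Seg S ⊆ S ×ˢ S := fun x hx => ⟨hx.1, hx.2.1⟩
    have h2 : volume (S ×ˢ S) = volume S * volume S := by
      rw [Measure.volume_eq_prod, Measure.prod_prod]
    have h3 := measure_mono (μ := (volume : Measure ((ℝ × ℝ) × (ℝ × ℝ)))) this
    rw [h2] at h3
    exact ne_top_of_le_ne_top (ENNReal.mul_ne_top hfin.ne hfin.ne) h3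
  have hprodM2 : (μ.prod μ) M = ENNReal.ofReal (beer S) := by
    have hV0 : (0 : ℝ) ≤ 1 / V := (one_div_pos.2 hVpos).le
    rw [hprodM, hMv, hcV, ← ENNReal.ofReal_toReal hSegfin, ← ENNReal.ofReal_mul hV0,
      ← ENNReal.ofReal_mul hV0]
    congr 1
    unfold beer
    rw [← hV]
    field_simp
  set δ : ℝ := ε ^ 9 / 641 with hδ
  have hδpos : 0 < δ := by positivity
  set t : ℝ := 4 * δ * V with ht
  have htpos : 0 < t := by positivity
  have hlt : 20 * (2 * (c * ENNReal.ofReal (4 * t))) < ((μ.prod μ) M) ^ 9 := by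
    rw [hprodM2, hcV, ← ENNReal.ofReal_mul (by positivity), ← ENNReal.ofReal_pow (by linarith)]
    have e1 : (20 : ENNReal) * (2 * ENNReal.ofReal (1 / V * (4 * t))) =
        ENNReal.ofReal (40 * (1 / V * (4 * t))) := by
      rw [ENNReal.ofReal_mul (by norm_num : (0:ℝ) ≤ 40), ← mul_assoc]
      congr 1
      rw [show (40 : ℝ) = ((40 : ℕ) : ℝ) by norm_num, ENNReal.ofReal_natCast]
      norm_num
    rw [e1]
    apply (ENNReal.ofReal_lt_ofReal_iff (pow_pos (lt_of_lt_of_le hε hb) 9)).2
    have e2 : 40 * (1 / V * (4 * t)) = 640 * δ := by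
      rw [ht]; field_simp; ring
    rw [e2]
    have e3 : ε ^ 9 ≤ beer S ^ 9 := pow_le_pow_left₀ hε.le hb 9
    have e4 : 0 < ε ^ 9 := by positivity
    rw [hδ]; linarith
  obtain ⟨P, hPM, hPt⟩ := exists_six μ c hμle t htpos M hMmeas hlt
  have hgen : Gen P := by
    intro a b c h1 h2 h3 h4
    have := hPt a b c h1 h2 h3
    rw [h4, abs_zero] at this
    linarith
  obtain ⟨i, j, k, l, hi, hk, hj, hl, hik, hjl, hcr1, hcr2⟩ := exists_cross hgen
  have hij : i ≠ j := fun h => absurd (h ▸ hi) (not_lt.2 hj)
  have hil : i ≠ l := fun h => absurd (h ▸ hi) (not_lt.2 hl)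
  have hkj : k ≠ j := fun h => absurd (h ▸ hk) (not_lt.2 hj)
  have hkl : k ≠ l := fun h => absurd (h ▸ hk) (not_lt.2 hl)
  obtain ⟨p, hp1, hp2, hp3⟩ := cross_tri (P i) (P j) (P k) (P l) t hcr1 hcr2
    (hPt k l i hkl hik.symm hil.symm) (hPt k l j hkl hkj hjl.symm)
  have sij : segment ℝ (P i) (P j) ⊆ S := (hMsub (hPM i j hi hj)).2.2
  have skl : segment ℝ (P k) (P l) ⊆ S := (hMsub (hPM k l hk hl)).2.2
  have sil : segment ℝ (P i) (P l) ⊆ S := (hMsub (hPM i l hi hl)).2.2
  have skj : segment ℝ (P k) (P j) ⊆ S := (hMsub (hPM k j hk hj)).2.2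
  have harea : ∀ x y z : ℝ × ℝ, t / 2 ≤ |D x y z| →
      ENNReal.ofReal δ * volume S ≤ volume (convexHull ℝ {x, y, z}) := by
    intro x y z hxyz
    refine le_trans ?_ (vol_tri x y z)
    rw [hVe, ← ENNReal.ofReal_mul hδpos.le]
    apply ENNReal.ofReal_le_ofReal
    rw [ht] at hxyz
    linarith
  have hne : ∀ x y z : ℝ × ℝ, t / 2 ≤ |D x y z| → ¬ Collinear ℝ {x, y, z} := by
    intro x y z hxyz
    apply not_collinear
    intro h
    rw [h, abs_zero] at hxyz
    linarith
  rcases hp3 with h | h
  · refine ⟨P i, p, P l, hne _ _ _ h, ?_, ?_, ?_, harea _ _ _ h⟩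
    · exact ((convex_segment (P i) (P j)).segment_subset (left_mem_segment ℝ _ _) hp1).trans sij
    · exact ((convex_segment (P k) (P l)).segment_subset hp2 (right_mem_segment ℝ _ _)).trans skl
    · rw [segment_symm]; exact sil
  · refine ⟨P k, p, P j, hne _ _ _ h, ?_, ?_, ?_, harea _ _ _ h⟩
    · exact ((convex_segment (P k) (P l)).segment_subset (left_mem_segment ℝ _ _) hp2).trans skl
    · exact ((convex_segment (P i) (P j)).segment_subset hp1 (right_mem_segment ℝ _ _)).trans sij
    · rw [segment_symm]; exact skj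

/-- **Q1 holds**: with `δ = ε ^ 9 / 641`, every planar set `S` with Beer index at least `ε`
contains the boundary of a triangle of area at least `δ λ(S)`. -/
theorem result : ∀ ε : ℝ, 0 < ε → ∃ δ : ℝ, 0 < δ ∧ δ = ε ^ 9 / 641 ∧
    ∀ S : Set (ℝ × ℝ), HasBeer S → ε ≤ beer S →
      ∃ a b c : ℝ × ℝ, ¬ Collinear ℝ {a, b, c} ∧
        segment ℝ a b ⊆ S ∧ segment ℝ b c ⊆ S ∧ segment ℝ c a ⊆ S ∧
        ENNReal.ofReal δ * volume S ≤ volume (convexHull ℝ {a, b, c}) := by
  intro ε hε
  exact ⟨ε ^ 9 / 641, by positivity, rfl, fun S hS hb => quant S hS ε hε hb⟩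

end Pool.Agent.Results.MP_40f41c_co.BeerTriangle
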